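import Mathlib
import Pool.Agent.H4.BM.Forward
import Pool.Agent.H4.BM.Exists

/-!
# A forward and backward Brownian motion with independent halves which is not two-sided

We disprove Q1: there is a process `X` with continuous paths which is a forward Brownian motion and
a backward Brownian motion, whose two halves seen from the deterministic time `T = 0` are
independent, but which is not a two-sided Brownian motion, not even when the random time may be
chosen on an enlarged probability space.

## The construction

Take four independent Brownian paths `P, M, F, M'`. Future of zero: run `M'` for a time `v(F)`,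
then `F`. Past of zero, read backwards: run `M` for a time `v(P)`, then `P`. Here, with `w(F)` the
first time in `[0, 1]` at which `F` is maximal over `[0, 1]`, the length is
`v(F) = 1 + b(F) - w(F)`, where the number `b(F)` in `[0, 1]` is
`∑ j, 2 ^ (-j-1) h(F (w + t_j + 1) - F (w + t_j))` for an increasing bijection `h` from the line to
`(0, 1)` and very quickly growing `t_j`.
So the position `v(F) + w(F)` of the marked maximum equals `1 + b(F)`, which can be read from far
away increments: the path tells where the time zero is.

* Not two-sided: for a two-sided Brownian motion, the two readings of the time zero (one from the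
  future and one from the past) would have to agree with positive probability for a fixed rational
  window, which is impossible since one can resample one of the far away increments.
* Forward: seen from `-v(P) - m`, for `m` in the second half of a long gap between storage blocks,
  the law of the process has a bounded density with respect to Wiener measure, and these densities
  average to one by a law of large numbers. A filling scheme with external randomisation then gives
  random times `S_n ≤ -n` from which the process is exactly a Brownian motion.
-/

open MeasureTheory ProbabilityTheory Filter Topology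
open scoped NNReal

namespace Pool.Agent.Results.MP_1541f7_pr.IndependentHalves

variable {Ω : Type*} [MeasurableSpace Ω]

/-- `X` is a forward Brownian motion: there are random times `S n`, tending to `-∞` almost surely,
such that for every `n` the process `X (S n + t) - X (S n)`, `t ≥ 0`, is a standard Brownian
motion. -/
def IsForward (X : ℝ → Ω → ℝ) (P : Measure Ω) : Prop :=
  ∃ S : ℕ → Ω → ℝ, (∀ n, Measurable (S n)) ∧ (∀ᵐ ω ∂P, Tendsto (fun n => S n ω) atTop atBot) ∧
    ∀ n, IsBrownianReal (fun (t : ℝ≥0) ω => X (S n ω + t) ω - X (S n ω) ω) P

/-- `X` is a backward Brownian motion: the reversed process is a forward Brownian motion. -/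
def IsBackward (X : ℝ → Ω → ℝ) (P : Measure Ω) : Prop := IsForward (fun t => X (-t)) P

/-- the two halves of `X` seen from the random time `T` are independent -/
def IndepHalves (X : ℝ → Ω → ℝ) (T : Ω → ℝ) (P : Measure Ω) : Prop :=
  IndepFun (fun ω (t : ℝ≥0) => X (T ω + t) ω - X (T ω) ω)
    (fun ω (t : ℝ≥0) => X (T ω - t) ω - X (T ω) ω) P

/-- `X` is a two-sided Brownian motion: there is a random time `S` such that the two halves of `X`
seen from `S` are independent standard Brownian motions. -/
def IsTwoSided (X : ℝ → Ω → ℝ) (P : Measure Ω) : Prop :=
  ∃ S : Ω → ℝ, AEMeasurable S P ∧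
    IsBrownianReal (fun (t : ℝ≥0) ω => X (S ω + t) ω - X (S ω) ω) P ∧
    IsBrownianReal (fun (t : ℝ≥0) ω => X (S ω - t) ω - X (S ω) ω) P ∧
    IndepHalves X S P

open Pool.Agent.H4.BM in
lemma not_isTwoSided {W : Measure Pth} (hW : IsW W) {P : Measure Ω} {p : Ω → Om}
    (hp : MeasurePreserving p P (mu0 W)) : ¬ IsTwoSided (fun t ω => XX t (p ω)) P := by
  rintro ⟨S, hS, h1, h2, h3⟩
  have hae := hS.ae_eq_mk
  refine not_two hW hp (hS.mk S) hS.measurable_mk (h1.toIsPreBrownianReal.congr fun t => ?_)
    (h2.toIsPreBrownianReal.congr fun t => ?_) ?_
  · filter_upwards [hae] with ω hω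
    rw [hω]
  · filter_upwards [hae] with ω hω
    rw [hω]
  · refine IndepFun.congr h3 ?_ ?_
    · filter_upwards [hae] with ω hω
      rw [hω]
    · filter_upwards [hae] with ω hω
      rw [hω]

/-- **Disproof of Q1.** There is a process with continuous paths which is a forward and a backward
Brownian motion, with independent halves seen from time zero, but which is not a two-sided Brownian
motion, not even on an enlarged probability space. -/
theorem result : ∃ (Ω : Type) (_ : MeasurableSpace Ω) (P : Measure Ω) (X : ℝ → Ω → ℝ),
    IsProbabilityMeasure P ∧ (∀ t, Measurable (X t)) ∧ (∀ ω, Continuous fun t => X t ω) ∧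
    IsForward X P ∧ IsBackward X P ∧ IndepHalves X (fun _ => 0) P ∧ ¬ IsTwoSided X P ∧
    ∀ (Ω' : Type) (_ : MeasurableSpace Ω') (P' : Measure Ω') (p : Ω' → Ω),
      MeasurePreserving p P' P → ¬ IsTwoSided (fun t ω => X t (p ω)) P' := by
  obtain ⟨W, hW⟩ := Pool.Agent.H4.BM.exists_IsW
  have hprob := Pool.Agent.H4.BM.muX_prob hW
  have hprob0 := Pool.Agent.H4.BM.mu0_prob hW
  have hfst : MeasurePreserving (Prod.fst : Pool.Agent.H4.BM.Om × ℝ → Pool.Agent.H4.BM.Om)
      (Pool.Agent.H4.BM.muX W) (Pool.Agent.H4.BM.mu0 W) := measurePreserving_fst
  refine ⟨Pool.Agent.H4.BM.Om × ℝ, inferInstance, Pool.Agent.H4.BM.muX W,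
    fun t x => Pool.Agent.H4.BM.XX t x.1, hprob,
    fun t => (Pool.Agent.H4.BM.measurable_XX t).comp measurable_fst,
    fun x => Pool.Agent.H4.BM.continuous_XX x.1, ?_, ?_, Pool.Agent.H4.BM.indep_halves hW,
    not_isTwoSided hW hfst, ?_⟩
  · choose S mS hS hB using fun n => Pool.Agent.H4.BM.exists_past hW n
    refine ⟨S, mS, Eventually.of_forall fun x => ?_, hB⟩
    exact tendsto_atBot_mono (fun n => hS n x)
      (tendsto_neg_atTop_atBot.comp tendsto_natCast_atTop_atTop)
  · choose S mS hS hB using fun n => Pool.Agent.H4.BM.exists_future hW n
    refine ⟨S, mS, Eventually.of_forall fun x => ?_, hB⟩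
    exact tendsto_atBot_mono (fun n => hS n x)
      (tendsto_neg_atTop_atBot.comp tendsto_natCast_atTop_atTop)
  · intro Ω' _ P' p hp
    exact not_isTwoSided hW (hfst.comp hp)

end Pool.Agent.Results.MP_1541f7_pr.IndependentHalves
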